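import Pool.Agent.H.MP_dbf4ef_co.A

set_option autoImplicit false

namespace Pool.Agent.Results.MP_165839_co.Eta

open Finset Classical

noncomputable def sph {V : Type} (G : SimpleGraph V) (s : Finset V) (x : V) : Finset V :=
  s.filter (G.Adj x)

noncomputable def cl {V : Type} (G : SimpleGraph V) (s : Finset V) : Finset (Finset V) :=
  s.powerset.filter (fun c : Finset V => c.Nonempty ∧ G.IsClique c)

noncomputable def chi {V : Type} (G : SimpleGraph V) (s : Finset V) : ℤ :=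
  ∑ c ∈ cl G s, (-1) ^ (c.card + 1)

inductive Coll {V : Type} (G : SimpleGraph V) : Finset V → Prop
  | single (x : V) : Coll G {x}
  | step (s : Finset V) (x : V) : x ∈ s → Coll G (s.erase x) → Coll G (sph G s x) → Coll G s

def Sphere {V : Type} (G : SimpleGraph V) : ℕ → Finset V → Prop
  | 0, s => s = ∅
  | n + 1, s => (∀ x ∈ s, Sphere G n (sph G s x)) ∧ ∃ x ∈ s, Coll G (s.erase x)

def DGraph {V : Type} (G : SimpleGraph V) : ℕ → Finset V → Prop
  | 0, s => s = ∅
  | n + 1, s => ∀ x ∈ s, Sphere G n (sph G s x)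

def Variety {V : Type} (G : SimpleGraph V) : ℕ → Finset V → Prop
  | 0, s => s = ∅
  | n + 1, s => ∃ Z ⊆ s, (∀ x ∈ Z, ∀ y ∈ Z, ¬ G.Adj x y) ∧
      (∀ x ∈ s, x ∉ Z → DGraph G n (sph G s x)) ∧ ∀ x ∈ Z, Variety G n (sph G s x)

def bary (V : Type) : SimpleGraph (Finset V) where
  Adj a b := a ⊂ b ∨ b ⊂ a
  symm := ⟨fun _ _ h => h.symm⟩
  loopless := ⟨fun _ h => h.elim (lt_irrefl _) (lt_irrefl _)⟩

noncomputable def eta {V : Type} [Fintype V] (G : SimpleGraph V) : ℤ :=
  ∑ c ∈ (cl (bary V) (cl G univ)).filter (fun c => 2 ≤ c.card), (-1) ^ c.card * (c.card : ℤ)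

open Pool.Agent.H.MP_dbf4ef_co

theorem gb {V : Type} (G : SimpleGraph V) (s : Finset V) :
    ∑ c ∈ (cl G s).filter (fun c => 2 ≤ c.card), (-1) ^ c.card * (c.card : ℤ) =
      ∑ x ∈ s, chi G (sph G s x) := by
  simp only [chi, mul_comm _ (card _ : ℤ), ← nsmul_eq_mul, ← sum_const]
  rw [sum_sigma', sum_sigma']
  refine sum_bij' (fun p _ => ⟨p.2, p.1.erase p.2⟩) (fun p _ => ⟨insert p.1 p.2, p.1⟩) ?_ ?_ ?_ ?_ ?_
  · rintro ⟨c, x⟩ h
    simp only [cl, sph, mem_sigma, mem_filter, mem_powerset] at h ⊢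
    obtain ⟨⟨⟨h1, -, h2⟩, h3⟩, h4⟩ := h
    exact ⟨h1 h4, fun y hy => mem_filter.2 ⟨h1 (mem_of_mem_erase hy),
      h2 h4 (mem_of_mem_erase hy) (ne_of_mem_erase hy).symm⟩,
      card_pos.1 (by rw [card_erase_of_mem h4]; omega), h2.subset (erase_subset _ _)⟩
  · rintro ⟨x, c⟩ h
    simp only [cl, sph, mem_sigma, mem_filter, mem_powerset] at h ⊢
    obtain ⟨h1, h2, h3, h4⟩ := h
    have n : x ∉ c := fun q => (mem_filter.1 (h2 q)).2.ne rfl
    have := h3.card_pos
    refine ⟨⟨⟨insert_subset h1 (h2.trans (filter_subset _ _)), insert_nonempty _ _, ?_⟩,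
      by rw [card_insert_of_notMem n]; omega⟩, mem_insert_self _ _⟩
    rw [coe_insert]
    exact h4.insert fun y hy _ => (mem_filter.1 (h2 hy)).2
  · rintro ⟨c, x⟩ h
    simp [insert_erase (mem_sigma.1 h).2]
  · rintro ⟨x, c⟩ h
    simp only [cl, sph, mem_sigma, mem_filter, mem_powerset] at h
    simp [erase_insert fun q => (mem_filter.1 (h.2.1 q)).2.ne rfl]
  · rintro ⟨c, x⟩ h
    simp only [card_erase_add_one (mem_sigma.1 h).2]

theorem chi_eq {V : Type} (G : SimpleGraph V) (s : Finset V) : chi G s = 1 - red G s := by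
  rw [red, ← add_sum_erase _ _ (empty_mem_powerset s), chi, cl, sum_filter,
    ← add_sum_erase _ _ (empty_mem_powerset s), sub_add_eq_sub_sub, sub_eq_add_neg,
    ← sum_neg_distrib]
  refine congrArg₂ _ (by simp) (sum_congr rfl (fun c hc => ?_))
  simp only [nonempty_iff_ne_empty.2 (mem_erase.1 hc).1, true_and]
  split_ifs <;> ring

theorem coll {V : Type} {G : SimpleGraph V} {s : Finset V} (h : Coll G s) : red G s = 0 := by
  induction h with
  | single x => simp [red_erase G {x} x (mem_singleton_self x), filter_singleton]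
  | step s x hx _ _ h1 h2 => rw [red_erase G s x hx, h1, ← sph, h2, sub_zero]

theorem sphere {V : Type} {G : SimpleGraph V} (n : ℕ) :
    ∀ s, Sphere G n s → red G s = (-1) ^ n := by
  induction n with
  | zero => rintro s rfl; simp [red_empty]
  | succ n ih =>
    rintro s ⟨h, x, hx, hc⟩
    rw [red_erase G s x hx, coll hc, ← sph, ih _ (h x hx)]
    ring

theorem link {V : Type} {G : SimpleGraph V} (n : ℕ) (s : Finset V) (h : Sphere G n s)
    (c : Finset V) (hs : c ⊆ s) (hc : G.IsClique c) :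
    ∃ m, n = m + c.card ∧ Sphere G m (s.filter (fun y => ∀ x ∈ c, G.Adj x y)) := by
  induction c using Finset.induction_on with
  | empty => exact ⟨n, rfl, by simpa using h⟩
  | insert a c ha ih =>
    obtain ⟨m, h1, h2⟩ := ih ((subset_insert _ _).trans hs) (hc.subset (by simp))
    have hm : a ∈ s.filter (fun y => ∀ x ∈ c, G.Adj x y) := mem_filter.2
      ⟨hs (by simp), fun x hx => hc (by simp [hx]) (by simp) (fun e => ha (e ▸ hx))⟩
    rcases m with _ | m
    · rw [show _ = ∅ from h2] at hm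
      simp at hm
    · refine ⟨m, by rw [card_insert_of_notMem ha]; omega, ?_⟩
      have := h2.1 a hm
      rwa [sph, filter_filter, filter_congr (q := fun y => ∀ x ∈ insert a c, G.Adj x y)
        (fun y _ => by simp [and_comm])] at this

theorem result (V : Type) [Fintype V] (G : SimpleGraph V) (d : ℕ) (h : Variety G (d + 1) univ) :
    0 ≤ eta G := by
  rw [eta, gb]
  obtain ⟨Z, -, z1, z2, -⟩ := h
  obtain ⟨K, hK⟩ : ∃ K, K = (univ : Finset V).powerset.filter (fun c : Finset V => G.IsClique c) :=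
    ⟨_, rfl⟩
  obtain ⟨U, hU⟩ : ∃ U : Finset V → ℤ, ∀ c, U c = ∑ τ ∈ K.filter (c ⊆ ·), (-1 : ℤ) ^ τ.card :=
    ⟨_, fun _ => rfl⟩
  have mK : ∀ c, c ∈ K ↔ G.IsClique c := by simp [hK]
  have mC : ∀ c, c ∈ cl G univ ↔ c.Nonempty ∧ c ∈ K := by simp [cl, mK]
  have e1 : ∀ x ∈ cl G univ, chi (bary V) (sph (bary V) (cl G univ) x) = 1 + U x := by
    intro x hx
    rw [chi_eq, sph, red_sphere (bary V) (fun _ _ => Iff.rfl) _ (by simp [mC]) (fun a ha b h1 h2 =>
      (mC b).2 ⟨empty_ssubset.1 h1, (mK b).2 (((mK a).1 ((mC a).1 ha).2).subset h2.1)⟩) x hx,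
      sub_neg_eq_add, hU]
    congr 2
    ext τ
    simp only [mem_filter, mC]
    exact ⟨fun h => ⟨h.1.2, h.2⟩, fun h => ⟨⟨((mC x).1 hx).1.mono h.2, h.1⟩, h.2⟩⟩
  have e2 : ∀ c ∈ K, 1 < c.card → U c = (-1) ^ (d + 1) := by
    intro c hc h2
    rw [mK] at hc
    obtain ⟨x, hx, y, hy, hxy, hZ⟩ : ∃ x ∈ c, ∃ y ∈ c, x ≠ y ∧ x ∉ Z := by
      obtain ⟨x, hx, y, hy, hxy⟩ := one_lt_card.1 h2
      by_cases h : x ∈ Z
      · exact ⟨y, hy, x, hx, hxy.symm, fun h' => z1 x h y h' (hc hx hy hxy)⟩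
      · exact ⟨x, hx, y, hy, hxy, h⟩
    have h3 := z2 x (mem_univ _) hZ
    have h4 : y ∈ sph G univ x := mem_filter.2 ⟨mem_univ _, hc hx hy hxy⟩
    rcases d with _ | d
    · rw [show _ = ∅ from h3] at h4
      simp at h4
    obtain ⟨m, h5, h6⟩ := link d _ (h3 y h4) ((c.erase x).erase y) (fun z hz => by
      simp only [mem_erase] at hz
      exact mem_filter.2 ⟨mem_filter.2 ⟨mem_univ _, hc hx hz.2.2 hz.2.1.symm⟩,
        hc hy hz.2.2 hz.1.symm⟩)
      (hc.subset ((erase_subset _ _).trans (erase_subset _ _)))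
    have h7 := card_erase_add_one (mem_erase.2 ⟨hxy.symm, hy⟩)
    have h8 := card_erase_add_one hx
    rw [hU, hK, red_link G univ c (subset_univ _) hc, show d + 1 + 1 = c.card + m by omega, pow_add,
      ← sphere m _ h6]
    congr 2
    ext z
    simp only [sph, mem_filter, mem_univ, true_and, mem_erase]
    refine ⟨fun h => ⟨⟨h x hx, h y hy⟩, fun w hw => h w hw.2.2⟩, fun h w hw => ?_⟩
    by_cases e : w = x
    · exact e ▸ h.1.1
    by_cases e' : w = y
    · exact e' ▸ h.1.2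
    exact h.2 w ⟨e', e, hw⟩
  have K1 : ∀ a ∈ K, ∀ b ⊆ a, b ∈ K := fun a ha b h => (mK b).2 (((mK a).1 ha).subset h)
  have sp : ∀ c ∈ cl G univ, c.card = 1 ∨ 1 < c.card := fun c hc => by
    have := ((mC c).1 hc).1.card_pos
    omega
  rcases neg_one_pow_eq_or ℤ (d + 1) with ε | ε <;> rw [ε] at e2
  · have i0 := inv K K1 ∅ ((mK _).2 (by simp))
    have c0 : K = insert ∅ (cl G univ) := by
      ext c
      simp only [mem_insert, mC, nonempty_iff_ne_empty]
      refine ⟨fun h => by tauto, ?_⟩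
      rintro (rfl | h)
      exacts [(mK _).2 (by simp), h.2]
    simp only [← hU, empty_subset, filter_true] at i0
    have u0 := hU ∅
    simp only [empty_subset, filter_true] at u0
    rw [c0, sum_insert (by simp [mC])] at i0 u0
    rw [sum_congr rfl e1]
    have h1 : ∑ c ∈ cl G univ, (if c.card = 1 then 0 else 2 + 2 * (-1 : ℤ) ^ c.card) =
        ∑ c ∈ cl G univ, (1 + U c) := by
      rw [sum_congr rfl (g := fun c => (1 + U c) + (-1) ^ c.card * U c + (-1) ^ c.card)
        (fun c hc => ?_), sum_add_distrib, sum_add_distrib]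
      · simp only [card_empty, pow_zero] at i0 u0
        linarith
      · rcases sp c hc with h | h
        · simp [h]
        · rw [if_neg h.ne', e2 c ((mC c).1 hc).2 h]; ring
    exact h1 ▸ sum_nonneg fun c _ => by
      rcases neg_one_pow_eq_or ℤ c.card with h | h <;> split_ifs <;> simp [h]
  · refine (sum_eq_zero fun x hx => ?_).ge
    rw [e1 x hx]
    rcases sp x hx with h | h
    · have i0 := inv K K1 x ((mC x).1 hx).2
      have m : x ∈ K.filter (x ⊆ ·) := mem_filter.2 ⟨((mC x).1 hx).2, subset_rfl⟩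
      have u0 := hU x
      simp only [← hU] at i0
      rw [← add_sum_erase _ _ m] at i0 u0
      rw [sum_congr rfl (g := fun c => -(-1) ^ c.card) (fun c hc => ?_), sum_neg_distrib] at i0
      · rw [h] at i0 u0
        linarith
      · obtain ⟨h1, h2⟩ := mem_erase.1 hc
        rw [e2 c (mem_filter.1 h2).1
          (h ▸ card_lt_card ((mem_filter.1 h2).2.ssubset_of_ne h1.symm))]
        ring
    · rw [e2 x ((mC x).1 hx).2 h]; ring

end Pool.Agent.Results.MP_165839_co.Eta
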